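import Pool.Agent.H.MP_0e6b5f_nt.Eng.Main

/-!
# Rational periodic points of Henon maps and the number of places of bad reduction
-/

namespace Pool.Agent.H.MP_0e6b5f_nt.Variants.BadReduction

open NumberField Module Polynomial Height
open Pool.Agent.H.MP_0e6b5f_nt

/-- For all `D` and `d ≥ 2` there is a constant `C` such that for every number field `K` of degree
`D` and every Henon map `f(x, y) = (y, F(y) - δ x)` of degree `d` over `K` the number of periodic
points of `f` with coordinates in `K` is at most `C (Y (1 + log Y)) ^ 4` with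
`Y = 1 + s + h(δ)`, where `s` is the (finite) number of finite places of `K` of bad reduction. -/
theorem result (D d : ℕ) (hd : 2 ≤ d) : ∃ C : ℝ, ∀ (K : Type*) [Field K] [NumberField K],
    finrank ℚ K = D → ∀ (F : K[X]) (δ : K), F.natDegree = d → δ ≠ 0 →
      (badPlaces F δ).Finite ∧ (perRat F δ).Finite ∧
      ((perRat F δ).ncard : ℝ) ≤ C * ((1 + (badPlaces F δ).ncard + logHeight₁ δ) *
        (1 + Real.log (1 + (badPlaces F δ).ncard + logHeight₁ δ))) ^ 4 :=
  Eng.main_bound D d hd

end Pool.Agent.H.MP_0e6b5f_nt.Variants.BadReduction
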