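import Pool.Agent.H.MP_0e6b5f_nt.DensFinal

/-!
# Almost no Henon map over the rationals has a periodic point of small degree
-/

namespace Pool.Agent.H.MP_0e6b5f_nt.Variants.Density

open Filter Topology
open Pool.Agent.H.MP_0e6b5f_nt

theorem result (d B : ℕ) (hd : 3 ≤ d) (hB : B + 2 ≤ d) :
    Tendsto (fun H : ℕ => ((withPer d B H).ncard : ℝ) / (2 * (H : ℝ) + 1) ^ (d + 3))
      atTop (𝓝 0) := by
  obtain ⟨d, rfl⟩ : ∃ e, d = e + 3 := ⟨d - 3, by omega⟩
  rw [Metric.tendsto_atTop]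
  intro ε hε
  obtain ⟨T, hT⟩ := exists_nat_gt (16 / ε)
  have hT0 : (0 : ℝ) < T := lt_trans (by positivity) hT
  have hT1 : 1 ≤ T := by
    have : 0 < T := by exact_mod_cast hT0
    omega
  have h8 : 8 / (T : ℝ) < ε / 2 := by
    rw [div_lt_iff₀ hT0]
    rw [div_lt_iff₀ hε] at hT
    linarith
  obtain ⟨K, hK0, hK⟩ := final_count d B T (by omega) hT1
  obtain ⟨N, hN⟩ := exists_nat_gt (6 * K / ε)
  have hN0 : (0 : ℝ) ≤ N := Nat.cast_nonneg _
  refine ⟨(N + 1) ^ 2, fun H hH => ?_⟩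
  have hH1 : 1 ≤ H := le_trans (Nat.one_le_pow _ _ (by omega)) hH
  set s := Nat.sqrt H with hs
  have hsN : N + 1 ≤ s := by
    rw [hs, Nat.le_sqrt']; exact hH
  have hs0 : (0 : ℝ) < s := by
    have : 0 < s := by omega
    exact_mod_cast this
  have hs1 : (1 : ℝ) ≤ s := by exact_mod_cast (by omega : 1 ≤ s)
  have hsH : (s : ℝ) ^ 2 ≤ H := by
    have := Nat.sqrt_le' H
    exact_mod_cast this
  set X : ℝ := 2 * (H : ℝ) + 1 with hX
  have hX0 : 0 < X := by positivity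
  have hcnt : ((withPer (d + 3) B H).ncard : ℝ) ≤
      X ^ (d + 6) * (8 / T) + X ^ (d + 5) * (K * (2 * (s : ℝ) + 1)) := hK H hH1
  have hXp : 0 < X ^ (d + 3 + 3) := pow_pos hX0 _
  have hnn : 0 ≤ ((withPer (d + 3) B H).ncard : ℝ) / X ^ (d + 3 + 3) := by positivity
  rw [Real.dist_eq, sub_zero, abs_of_nonneg hnn]
  have h1 : ((withPer (d + 3) B H).ncard : ℝ) / X ^ (d + 3 + 3) ≤
      8 / T + K * (3 / s) := by
    rw [div_le_iff₀ hXp]
    refine hcnt.trans ?_
    have h2 : (2 * (s : ℝ) + 1) ≤ X * (3 / s) := by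
      have h3 : X * (3 / s) = 3 * X / s := by ring
      rw [h3, le_div_iff₀ hs0]
      nlinarith
    have h3 : X ^ (d + 5) * (K * (2 * (s : ℝ) + 1)) ≤ X ^ (d + 5) * (K * (X * (3 / s))) := by
      gcongr
    have h5 : X ^ (d + 6) = X ^ (d + 5) * X := by ring
    rw [h5]
    calc X ^ (d + 5) * X * (8 / T) + X ^ (d + 5) * (K * (2 * (s : ℝ) + 1))
        ≤ X ^ (d + 5) * X * (8 / T) + X ^ (d + 5) * (K * (X * (3 / s))) := by linarith
      _ = (8 / T + K * (3 / s)) * (X ^ (d + 5) * X) := by ring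
  have h2 : K * (3 / s) < ε / 2 := by
    have h3 : (N : ℝ) < s := by exact_mod_cast (by omega : N < s)
    have h4 : 6 * K < ε * s := by
      rw [div_lt_iff₀ hε] at hN
      nlinarith
    have h5 : K * (3 / s) = 3 * K / s := by ring
    rw [h5, div_lt_iff₀ hs0]
    linarith
  linarith

end Pool.Agent.H.MP_0e6b5f_nt.Variants.Density
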