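import Pool.Agent.H.MP_0e6b5f_nt.Dom.Final

/-!
# Periodic points of Henon maps and the share of the height carried by one place
-/

namespace Pool.Agent.H.MP_0e6b5f_nt.Variants.DominatingPlace

open NumberField
open Pool.Agent.H.MP_0e6b5f_nt Pool.Agent.H.MP_0e6b5f_nt.Dom

/-- For every degree `d ≥ 2` there are constants `C` and `R₀` such that, for every number field `K`,
every Henon map `f(x, y) = (y, F(y) - δ x)` of degree `d` over `K` with
`F = (1 + δ) X + c ^ (d - 1) ∏ (X - ζ i)`, every place `w` of `K` at which the diameter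
`R = max |c (ζ i - ζ j)|_w` of the set of fixed points is `> 1` (and `≥ R₀` if `w` is infinite) and
at which `δ` is not too far from a unit, and every finite extension `L` of `K`, the map `f` has at
most `C (Y (1 + log Y)) ^ 2` periodic points with coordinates in `L`, where
`Y = 1 + [L : K] ([K : ℚ] + h(f)) / log R`. -/
theorem result (d : ℕ) (hd : 2 ≤ d) :
    ∃ C R₀ : ℝ, ∀ (K : Type*) [Field K] [NumberField K] (c δ : K) (ζ : Fin d → K)
      (w : AbsoluteValue K ℝ) (L : IntermediateField K (AlgebraicClosure K)),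
      c ≠ 0 → δ ≠ 0 →
      (IsFinitePlace w ∨ (IsInfinitePlace w ∧ R₀ ≤ fixedPointDiam w c ζ)) →
      1 < fixedPointDiam w c ζ → w δ ^ 4 ≤ fixedPointDiam w c ζ →
      (w δ)⁻¹ ^ 4 ≤ fixedPointDiam w c ζ → FiniteDimensional K L →
      (perIn (fixedPointForm c δ ζ) δ L).Finite ∧
        ((perIn (fixedPointForm c δ ζ) δ L).ncard : ℝ) ≤
          C * (heightRatio w c δ ζ L * (1 + Real.log (heightRatio w c δ ζ L))) ^ 2 :=
  ⟨cst4 d, 2 ^ (40 * d + 80), fun _ _ _ _ _ ζ w L hc hδ hw hR h1 h2 hL =>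
    main_bound hd hc hδ ζ w hw hR h1 h2 L hL⟩

end Pool.Agent.H.MP_0e6b5f_nt.Variants.DominatingPlace
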