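import Pool.Agent.H.MP_0e6b5f_nt.LocalPlace
import Pool.Agent.H.MP_0e6b5f_nt.DefsLocal

/-!
# Uniform boundedness from the behaviour at one place above a given prime
-/

namespace Pool.Agent.H.MP_0e6b5f_nt.Variants.LocalCriterion

open Polynomial Module
open Pool.Agent.H.MP_0e6b5f_nt

/-- Uniform bound for the generalized Henon maps satisfying, at one place above the prime `p`,
either a generalised potential good reduction condition or (when `p` is prime to `d` and to the
orders of the unit groups involved) the same condition without any restriction on the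
constant term. -/
theorem result (D B d p : ℕ) (hd : 2 ≤ d) (hp : p.Prime) :
    ∃ C₀ : ℕ, ∀ (K : Type*) [Field K] [NumberField K], finrank ℚ K = D →
      ∀ (F : K[X]) (δ : K), F.natDegree = d → δ ≠ 0 →
      ∀ (W : ValuationSubring (AlgebraicClosure K)) (b : AlgebraicClosure K),
        W.valuation (p : AlgebraicClosure K) < 1 →
        CoeffSmall W (F.map (algebraMap K (AlgebraicClosure K)))
          (algebraMap K (AlgebraicClosure K) δ) b →
        (ConstSmall W (F.map (algebraMap K (AlgebraicClosure K)))
          (algebraMap K (AlgebraicClosure K) δ) b ∨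
          ((∃ b' : K, algebraMap K (AlgebraicClosure K) b' = b) ∧ ¬ p ∣ d ∧
            ∀ j, 1 ≤ j → j ≤ B * D → Nat.Coprime d (p ^ j - 1))) →
        (perLE F δ B).encard ≤ C₀ := by
  refine ⟨d ^ bigM (p ^ (2 * (B * D))), ?_⟩
  intro K _ _ hK F δ hF hδ W b hW hcoef hcond
  have hnd : (F.map (algebraMap K (AlgebraicClosure K))).natDegree = d := by
    rw [natDegree_map]; exact hF
  rw [CoeffSmall, hnd] at hcoef
  rw [ConstSmall, hnd] at hcond
  apply encard_le_of_iterate hd hF (bigM_pos _)
  rintro P ⟨⟨n, hn, hPn⟩, hPB⟩
  have hN : finrank ℚ K *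
      finrank K (IntermediateField.adjoin K ({P.1, P.2} : Set (AlgebraicClosure K))) ≤ B * D := by
    rw [hK, mul_comm]; exact Nat.mul_le_mul hPB le_rfl
  rcases hcond with h0 | ⟨hb, hpd, hcop⟩
  · obtain ⟨ρ, hρ⟩ := goodCond_of_coeff W.valuation (F.map (algebraMap K (AlgebraicClosure K)))
      (algebraMap K (AlgebraicClosure K) δ) hd hnd b hcoef h0
    exact point_period_good W.valuation hp hW hd F δ hδ P hN b ρ hρ hn hPn
  · obtain ⟨b', rfl⟩ := hb
    refine point_period W.valuation hp hW F δ hδ P hN ?_ hn hPn
    intro L hL hLN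
    refine locExp_of_prime' W.valuation hp hW hd hpd hcop F hF b' δ ?_ L hL hLN
    intro i hi1 hid
    have h1 := hcoef i hi1 hid
    have e : ((F.map (algebraMap K (AlgebraicClosure K))).comp
        (X + C (algebraMap K (AlgebraicClosure K) b'))).coeff i =
        algebraMap K (AlgebraicClosure K) ((F.comp (X + C b')).coeff i) := by
      rw [← coeff_map, Polynomial.map_comp]; simp
    rw [e, leadingCoeff_map] at h1
    exact h1

end Pool.Agent.H.MP_0e6b5f_nt.Variants.LocalCriterion
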