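import Pool.Agent.H.MP_0e6b5f_nt.Eng.OnePlace

/-!
# Periodic points of Henon maps and the share of the height carried by one place
-/

namespace Pool.Agent.H.MP_0e6b5f_nt.Variants.OnePlace

open NumberField
open Pool.Agent.H.MP_0e6b5f_nt

/-- For every degree `d ≥ 2` there are constants `C` and `R₀` such that, for every number field `K`,
every Henon map `f(x, y) = (y, F(y) - δ x)` of degree `d` over `K` with
`F = (1 + δ) X + c ^ (d - 1) ∏ (X - ζ i)`, every place `w` of `K` at which the normalised diameter
`R = max |c (ζ i - ζ j)|_w ^ (d - 1) / max(1, |δ|_w)` of the set of fixed points is `> 1` (and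
`≥ R₀` if `w` is infinite) and every finite extension `L` of `K`, the map `f` has at most
`C (Y (1 + log Y)) ^ 4` periodic points with coordinates in `L`, where
`Y = 1 + [L : K] ([K : ℚ] + h(f)) / log R`. -/
theorem result (d : ℕ) (hd : 2 ≤ d) :
    ∃ C R₀ : ℝ, ∀ (K : Type*) [Field K] [NumberField K] (c δ : K) (ζ : Fin d → K)
      (w : AbsoluteValue K ℝ) (L : IntermediateField K (AlgebraicClosure K)),
      c ≠ 0 → δ ≠ 0 →
      (IsFinitePlace w ∨ (IsInfinitePlace w ∧ R₀ ≤ normalDiam w c δ ζ)) →
      1 < normalDiam w c δ ζ → FiniteDimensional K L →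
      (perIn (fixedPointForm c δ ζ) δ L).Finite ∧
        ((perIn (fixedPointForm c δ ζ) δ L).ncard : ℝ) ≤
          C * (normalRatio w c δ ζ L * (1 + Real.log (normalRatio w c δ ζ L))) ^ 4 :=
  Eng.one_place d hd

end Pool.Agent.H.MP_0e6b5f_nt.Variants.OnePlace
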