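import Pool.Agent.H.MP_0e6b5f_nt.RealStrong
import Pool.Agent.H.MP_0e6b5f_nt.Global

/-!
# Generalized Henon maps all of whose real differentials have real eigenvalues
-/

namespace Pool.Agent.H.MP_0e6b5f_nt.Variants.RealPlace

open Polynomial Module Function
open Pool.Agent.H.MP_0e6b5f_nt

theorem result {K : Type*} [Field K] [NumberField K] (σ : K →+* ℝ) (F : K[X]) (δ : K) (d : ℕ)
    (hd : 2 ≤ d) (hF : F.natDegree = d) (hδ : δ ≠ 0)
    (hsign : (∀ t : ℝ, 0 ≤ F.derivative.eval₂ σ t) ∨ (∀ t : ℝ, F.derivative.eval₂ σ t ≤ 0))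
    (hdisc : ∀ t : ℝ, 4 * σ δ ≤ (F.derivative.eval₂ σ t) ^ 2) :
    {P : AlgebraicClosure K × AlgebraicClosure K |
      (∃ n : ℕ, 1 ≤ n ∧ (henon F δ)^[n] P = P) ∧
      (Odd (finrank K (IntermediateField.adjoin K ({P.1, P.2} : Set (AlgebraicClosure K)))) ∨
        ∃ τ : IntermediateField.adjoin K ({P.1, P.2} : Set (AlgebraicClosure K)) →+* ℝ,
          τ.comp (algebraMap K _) = σ)}.encard ≤ (d ^ 2 : ℕ) := by
  apply encard_le_of_iterate hd hF two_pos
  rintro P ⟨⟨n, hn, hP⟩, hPr⟩
  set L := IntermediateField.adjoin K ({P.1, P.2} : Set (AlgebraicClosure K)) with hL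
  obtain ⟨τ, hτ⟩ : ∃ τ : L →+* ℝ, τ.comp (algebraMap K L) = σ := by
    rcases hPr with h | h
    · exact exists_extension_of_odd σ h
    · exact h
  have h1 : P.1 ∈ L := IntermediateField.subset_adjoin K _ (by simp)
  have h2 : P.2 ∈ L := IntermediateField.subset_adjoin K _ (by simp)
  set Q : L × L := (⟨P.1, h1⟩, ⟨P.2, h2⟩) with hQ
  have hc := hm_map (algebraMap L (AlgebraicClosure K)) (F.map (algebraMap K L))
    (algebraMap K L δ)
  rw [Polynomial.map_map, ← IsScalarTower.algebraMap_eq K L (AlgebraicClosure K),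
    ← IsScalarTower.algebraMap_apply K L (AlgebraicClosure K), ← henon_eq_hm] at hc
  have hinj : Injective (Prod.map (algebraMap L (AlgebraicClosure K))
      (algebraMap L (AlgebraicClosure K))) :=
    (algebraMap L (AlgebraicClosure K)).injective.prodMap
      (algebraMap L (AlgebraicClosure K)).injective
  have hPQ : P = Prod.map (algebraMap L (AlgebraicClosure K))
      (algebraMap L (AlgebraicClosure K)) Q := rfl
  rw [hPQ, Semiconj.iterate_eq hc hinj] at hP ⊢
  have hc' := hm_map τ (F.map (algebraMap K L)) (algebraMap K L δ)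
  rw [Polynomial.map_map, hτ] at hc'
  have hδ' : τ (algebraMap K L δ) = σ δ := by rw [← hτ]; rfl
  rw [hδ'] at hc'
  have hinj' : Injective (Prod.map τ τ) := τ.injective.prodMap τ.injective
  rw [← Semiconj.iterate_eq hc' hinj'] at hP ⊢
  refine real_period_two_disc ((map_ne_zero σ).mpr hδ) ?_ ?_ hn hP
  · simpa only [eval_map, derivative_map] using hsign
  · simpa only [eval_map, derivative_map] using hdisc

end Pool.Agent.H.MP_0e6b5f_nt.Variants.RealPlace
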