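import Pool.Agent.H.MP_0e6b5f_nt.H52.TwistMain

/-!
# Uniform boundedness for 100 percent of the Jacobians on every rational line
-/

namespace Pool.Agent.H.MP_0e6b5f_nt.Variants.Twists

open Polynomial Module Filter Topology
open Pool.Agent.H.MP_0e6b5f_nt Pool.Agent.H.MP_0e6b5f_nt.H52

/-- For every number field `K`, every `F` over `K` of degree `d ≥ 2` and every rational line
`t ↦ t δ + c` in `K` (`δ ≠ 0`), 100 percent of the rational numbers `t` (ordered by height) have
the property that all the periodic points `P` with `[K(P) : K] ≤ B` of the Henon map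
`(x, y) ↦ (y, F(y) - (t δ + c) x)` have exact period at most `B [K : ℚ]`; in particular there are at
most `∑_{s ≤ B [K : ℚ]} d ^ s` of them. -/
theorem result (K : Type*) [Field K] [NumberField K] (F : K[X]) (hF : 2 ≤ F.natDegree)
    (δ c : K) (hδ : δ ≠ 0) (B : ℕ) :
    Tendsto (fun H : ℕ => (({t ∈ ratBox H | ¬ ShortPeriods F ((t : K) * δ + c) B}).ncard : ℝ) /
      ((ratBox H).ncard : ℝ)) atTop (𝓝 0) :=
  twist_density F hF δ c hδ B

end Pool.Agent.H.MP_0e6b5f_nt.Variants.Twists
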